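import Mathlib
import Pool.Agent.U136.DX.Stm5

/-!
# Package MONO of project DX: strong monotonicity of an explicit gradient
-/

set_option autoImplicit false

namespace Pool.Agent.U810.DX.MONO

open Pool.Agent.U136.DX

theorem psi_eq (e x v : Fin 3 → ℝ) (k : ℕ) : ∑ j, GG e (k + 3) x j * v j =
    2 * ((k : ℝ) + 3) * (∑ i, e i ^ 2) * (∑ i, x i ^ 2) ^ (k + 2) * (∑ i, x i * v i) +
    4 * ((k : ℝ) + 3) * (∑ i, e i * x i) * (∑ i, x i ^ 2) ^ (k + 2) * (∑ i, e i * v i) +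
    4 * ((k : ℝ) + 3) * ((k : ℝ) + 2) * (∑ i, e i * x i) ^ 2 * (∑ i, x i ^ 2) ^ (k + 1) *
      (∑ i, x i * v i) := by
  have h1 : k + 3 - 1 = k + 2 := rfl
  have h2 : k + 3 - 2 = k + 1 := rfl
  unfold GG
  rw [h1, h2]
  push_cast
  generalize (∑ i, x i ^ 2) ^ (k + 2) = P
  generalize (∑ i, x i ^ 2) ^ (k + 1) = Q
  generalize (∑ i, e i ^ 2) = E'
  generalize (∑ i, e i * x i) = s
  rw [Fin.sum_univ_three, Fin.sum_univ_three, Fin.sum_univ_three]
  ring

theorem lower (X Y p : ℝ) (hYX : Y ≤ X) (hp : 0 ≤ X + 2 * p + Y) (s : ℝ)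
    (hs0 : 0 ≤ s) (hs1 : s ≤ 1 / 4) (hX : 0 ≤ X) :
    X / 4 ≤ (1 - s) ^ 2 * X + 2 * s * (1 - s) * p + s ^ 2 * Y := by
  have h1 : 0 ≤ s * (1 - s) * (X + 2 * p + Y) := by
    have : 0 ≤ 1 - s := by linarith
    positivity
  have h2 : 0 ≤ s * (1 - 2 * s) * (X - Y) := by
    have h3 : 0 ≤ 1 - 2 * s := by linarith
    have h4 : 0 ≤ X - Y := by linarith
    positivity
  have h3 : 0 ≤ ((1 - 2 * s) ^ 2 - 1 / 4) * X := by
    refine mul_nonneg ?_ hX
    nlinarith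
  nlinarith

theorem main_ineq (hC : S_CVX) (k : ℕ) (e x y : Fin 3 → ℝ) (hxy : ∑ i, y i ^ 2 ≤ ∑ i, x i ^ 2) :
    ((k : ℝ) + 3) / 2 * (∑ i, e i ^ 2) * ((∑ i, x i ^ 2) / 4) ^ (k + 2) *
      ∑ i, (x i - y i) ^ 2 ≤
    ∑ j, (GG e (k + 3) x j - GG e (k + 3) y j) * (x j - y j) := by
  set v : Fin 3 → ℝ := fun i => x i - y i with hv
  set E : ℝ := ∑ i, e i ^ 2 with hE
  set V : ℝ := ∑ i, v i ^ 2 with hV
  set α : ℝ := ∑ i, e i * v i with hα
  have hE0 : 0 ≤ E := Finset.sum_nonneg fun i _ => sq_nonneg _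
  have hV0 : 0 ≤ V := Finset.sum_nonneg fun i _ => sq_nonneg _
  set z : ℝ → Fin 3 → ℝ := fun t i => y i + t * v i with hz
  set r : ℝ → ℝ := fun t => ∑ i, z t i ^ 2 with hr
  set w : ℝ → ℝ := fun t => ∑ i, z t i * v i with hw
  set s : ℝ → ℝ := fun t => ∑ i, e i * z t i with hs
  have hr0 : ∀ t, 0 ≤ r t := fun t => Finset.sum_nonneg fun i _ => sq_nonneg _
  have dz : ∀ t i, HasDerivAt (fun t => z t i) (v i) t := by
    intro t i
    have h1 := ((hasDerivAt_id t).mul_const (v i)).const_add (y i)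
    rw [one_mul] at h1
    exact h1
  have dr : ∀ t, HasDerivAt r (2 * w t) t := by
    intro t
    have h1 : HasDerivAt (fun t => ∑ i, z t i ^ 2) (∑ i, (2 : ℕ) * z t i ^ (2 - 1) * v i) t :=
      HasDerivAt.fun_sum fun i _ => (dz t i).fun_pow 2
    refine h1.congr_deriv ?_
    rw [hw, Finset.mul_sum]
    refine Finset.sum_congr rfl fun i _ => ?_
    norm_num
    ring
  have dw : ∀ t, HasDerivAt w V t := by
    intro t
    have h1 : HasDerivAt (fun t => ∑ i, z t i * v i) (∑ i, v i * v i) t :=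
      HasDerivAt.fun_sum fun i _ => (dz t i).mul_const (v i)
    refine h1.congr_deriv ?_
    rw [hV]
    exact Finset.sum_congr rfl fun i _ => (sq _).symm
  have ds : ∀ t, HasDerivAt s α t := by
    intro t
    have h1 : HasDerivAt (fun t => ∑ i, e i * z t i) (∑ i, e i * v i) t :=
      HasDerivAt.fun_sum fun i _ => (dz t i).const_mul (e i)
    exact h1
  set ψ : ℝ → ℝ := fun t => 2 * ((k : ℝ) + 3) * E * r t ^ (k + 2) * w t +
    4 * ((k : ℝ) + 3) * s t * r t ^ (k + 2) * α +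
    4 * ((k : ℝ) + 3) * ((k : ℝ) + 2) * s t ^ 2 * r t ^ (k + 1) * w t with hψ
  set Q : ℝ → ℝ := fun t => α ^ 2 * r t ^ 2 +
    ((k : ℝ) + 2) * r t * (E * w t ^ 2 + 4 * s t * α * w t + s t ^ 2 * V) +
    2 * ((k : ℝ) + 2) * (((k : ℝ) + 2) - 1) * s t ^ 2 * w t ^ 2 with hQ
  have hQ0 : ∀ t, 0 ≤ Q t := by
    intro t
    have h1 := hC (k + 2) (by omega) e (z t) v
    push_cast at h1
    exact h1
  have dψ : ∀ t, HasDerivAt ψ
      (2 * ((k : ℝ) + 3) * (E * r t ^ (k + 2) * V + 2 * (r t ^ k * Q t))) t := by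
    intro t
    have p2 : HasDerivAt (fun t => r t ^ (k + 2)) (((k : ℝ) + 2) * r t ^ (k + 1) * (2 * w t)) t := by
      have h1 := (dr t).fun_pow (k + 2)
      refine h1.congr_deriv ?_
      push_cast
      rfl
    have p1 : HasDerivAt (fun t => r t ^ (k + 1)) (((k : ℝ) + 1) * r t ^ k * (2 * w t)) t := by
      have h1 := (dr t).fun_pow (k + 1)
      refine h1.congr_deriv ?_
      push_cast
      rfl
    have s2 : HasDerivAt (fun t => s t ^ 2) (2 * s t * α) t := by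
      have h1 := (ds t).fun_pow 2
      refine h1.congr_deriv ?_
      norm_num
    have a1 := (p2.const_mul (2 * ((k : ℝ) + 3) * E)).fun_mul (dw t)
    have a2 := (((ds t).const_mul (4 * ((k : ℝ) + 3))).fun_mul p2).mul_const α
    have a3 := (((s2.const_mul (4 * ((k : ℝ) + 3) * ((k : ℝ) + 2))).fun_mul p1)).fun_mul (dw t)
    refine ((a1.fun_add a2).fun_add a3).congr_deriv ?_
    rw [hQ]
    simp only
    generalize r t = R
    generalize w t = W
    generalize s t = S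
    have e1 : R ^ (k + 1) = R ^ k * R := pow_succ R k
    have e2 : R ^ (k + 2) = R ^ k * R * R := by rw [pow_succ, pow_succ]
    rw [e1, e2]
    generalize R ^ k = U
    ring
  have hcont : Continuous ψ := continuous_iff_continuousAt.2 fun t => (dψ t).continuousAt
  have hder : ∀ t, deriv ψ t = 2 * ((k : ℝ) + 3) * (E * r t ^ (k + 2) * V + 2 * (r t ^ k * Q t)) :=
    fun t => (dψ t).deriv
  have hk0 : (0 : ℝ) ≤ k := Nat.cast_nonneg k
  -- from `0` to `3 / 4`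
  have m1 : 0 * ((3 / 4 : ℝ) - 0) ≤ ψ (3 / 4) - ψ 0 := by
    refine Convex.mul_sub_le_image_sub_of_le_deriv convex_univ hcont.continuousOn
      (fun t _ => (dψ t).differentiableAt.differentiableWithinAt) (fun t _ => ?_) 0 (Set.mem_univ _)
      (3 / 4) (Set.mem_univ _) (by norm_num)
    rw [hder]
    have h1 := hQ0 t
    have h2 := hr0 t
    positivity
  -- from `3 / 4` to `1`
  set X : ℝ := ∑ i, x i ^ 2 with hX
  have hX0 : 0 ≤ X := Finset.sum_nonneg fun i _ => sq_nonneg _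
  have m2 : 2 * ((k : ℝ) + 3) * (E * (X / 4) ^ (k + 2) * V) * ((1 : ℝ) - 3 / 4) ≤
      ψ 1 - ψ (3 / 4) := by
    refine Convex.mul_sub_le_image_sub_of_le_deriv (convex_Icc (3 / 4 : ℝ) 1) hcont.continuousOn
      (fun t _ => (dψ t).differentiableAt.differentiableWithinAt) (fun t ht => ?_) (3 / 4)
      ⟨le_rfl, by norm_num⟩ 1 ⟨by norm_num, le_rfl⟩ (by norm_num)
    rw [interior_Icc] at ht
    rw [hder]
    have h1 := hQ0 t
    have h2 := hr0 t
    have h3 : X / 4 ≤ r t := by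
      have h4 : 0 ≤ X + 2 * (∑ i, x i * y i) + ∑ i, y i ^ 2 := by
        have h5 : 0 ≤ ∑ i, (x i + y i) ^ 2 := Finset.sum_nonneg fun i _ => sq_nonneg _
        have h6 : ∑ i, (x i + y i) ^ 2 = X + 2 * (∑ i, x i * y i) + ∑ i, y i ^ 2 := by
          rw [hX, Fin.sum_univ_three, Fin.sum_univ_three, Fin.sum_univ_three, Fin.sum_univ_three]
          ring
        rwa [h6] at h5
      have h5 := lower X (∑ i, y i ^ 2) (∑ i, x i * y i) hxy h4 (1 - t) (by linarith [ht.2])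
        (by linarith [ht.1]) hX0
      refine h5.trans (le_of_eq ?_)
      rw [hr, hX]
      simp only [hz, hv]
      rw [Fin.sum_univ_three, Fin.sum_univ_three, Fin.sum_univ_three, Fin.sum_univ_three]
      ring
    have h4 : (X / 4) ^ (k + 2) ≤ r t ^ (k + 2) := pow_le_pow_left₀ (by positivity) h3 _
    have h5 : E * (X / 4) ^ (k + 2) * V ≤ E * r t ^ (k + 2) * V :=
      mul_le_mul_of_nonneg_right (mul_le_mul_of_nonneg_left h4 hE0) hV0
    have h6 : 0 ≤ r t ^ k * Q t := by positivity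
    have h7 : (0 : ℝ) ≤ 2 * ((k : ℝ) + 3) := by positivity
    exact mul_le_mul_of_nonneg_left (by linarith) h7
  -- the end values
  have e1 : ψ 1 = ∑ j, GG e (k + 3) x j * v j := by
    rw [psi_eq]
    have h1 : z 1 = x := by
      funext i
      simp [hz, hv]
    simp only [hψ, hr, hw, hs, h1]
    ring
  have e0 : ψ 0 = ∑ j, GG e (k + 3) y j * v j := by
    rw [psi_eq]
    have h1 : z 0 = y := by
      funext i
      simp [hz]
    simp only [hψ, hr, hw, hs, h1]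
    ring
  have e2 : ∑ j, (GG e (k + 3) x j - GG e (k + 3) y j) * (x j - y j) = ψ 1 - ψ 0 := by
    rw [e1, e0, ← Finset.sum_sub_distrib]
    refine Finset.sum_congr rfl fun j _ => ?_
    rw [hv]
    ring
  rw [e2]
  have e3 : ((k : ℝ) + 3) / 2 * E * (X / 4) ^ (k + 2) * V =
      2 * ((k : ℝ) + 3) * (E * (X / 4) ^ (k + 2) * V) * ((1 : ℝ) - 3 / 4) := by ring
  rw [e3]
  linarith

theorem t_MONO : S_MONO := by
  intro hC m hm
  obtain ⟨k, rfl⟩ : ∃ k, m = k + 3 := ⟨m - 3, by omega⟩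
  refine ⟨((k : ℝ) + 3) / 4 ^ (k + 3), by positivity, fun e x y => ?_⟩
  have h1 : k + 3 - 1 = k + 2 := rfl
  rw [h1]
  wlog hxy : ∑ i, y i ^ 2 ≤ ∑ i, x i ^ 2 generalizing x y
  · have h2 := this y x (le_of_not_ge hxy)
    have h3 : ∑ i, (y i - x i) ^ 2 = ∑ i, (x i - y i) ^ 2 :=
      Finset.sum_congr rfl fun i _ => by ring
    have h4 : ∑ j, (GG e (k + 3) y j - GG e (k + 3) x j) * (y j - x j) =
        ∑ j, (GG e (k + 3) x j - GG e (k + 3) y j) * (x j - y j) :=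
      Finset.sum_congr rfl fun i _ => by ring
    rw [h3, h4, add_comm ((∑ i, y i ^ 2) ^ (k + 2))] at h2
    exact h2
  refine le_trans ?_ (main_ineq hC k e x y hxy)
  have hE0 : 0 ≤ ∑ i, e i ^ 2 := Finset.sum_nonneg fun i _ => sq_nonneg _
  have hV0 : 0 ≤ ∑ i, (x i - y i) ^ 2 := Finset.sum_nonneg fun i _ => sq_nonneg _
  have hY0 : 0 ≤ ∑ i, y i ^ 2 := Finset.sum_nonneg fun i _ => sq_nonneg _
  have h2 : (∑ i, y i ^ 2) ^ (k + 2) ≤ (∑ i, x i ^ 2) ^ (k + 2) := pow_le_pow_left₀ hY0 hxy _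
  generalize ∑ i, (x i - y i) ^ 2 = V at *
  generalize ∑ i, e i ^ 2 = E at *
  generalize ∑ i, y i ^ 2 = Y at *
  generalize ∑ i, x i ^ 2 = X at *
  have h3 : ((k : ℝ) + 3) / 2 * E * (X / 4) ^ (k + 2) * V =
      ((k : ℝ) + 3) / 4 ^ (k + 3) * E * (X ^ (k + 2) + X ^ (k + 2)) * V := by
    rw [div_pow, show (4 : ℝ) ^ (k + 3) = 4 ^ (k + 2) * 4 from pow_succ _ _]
    field_simp
    ring
  rw [h3]
  have h4 : X ^ (k + 2) + Y ^ (k + 2) ≤ X ^ (k + 2) + X ^ (k + 2) := by linarith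
  refine mul_le_mul_of_nonneg_right (mul_le_mul_of_nonneg_left h4 ?_) hV0
  positivity

end Pool.Agent.U810.DX.MONO
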